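import Pool.Agent.HEI.ALLI

/-!
# Vaught's conjecture for hereditary classes

For every countable relational language (no bound on the arities), every first-order theory `T` and
every sentence `φ` of `L_{omega_1, omega}` such that the models of `T` and `φ` on `ℕ` are closed
under infinite substructures up to a finite set (every model `S` has a finite set `F` such that all
structures isomorphic to an infinite substructure of `S` containing `F` are models), the models on
`ℕ` fall into countably many isomorphism types or there are perfectly many of them.
-/

set_option autoImplicit false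

namespace Pool.Agent.Results.MP_5df2c5_lc.HereditaryClasses

open Pool.Agent.Helper5.DU Pool.Agent.Helper6.Str Pool.Agent.Helper79.VC Pool.Agent.Helper6.VC

/-- **Vaught's conjecture (perfect set form) for hereditary classes of relational structures.**
The hypothesis `h` says: every model `S` on `ℕ` has a finite set `F` such that the structure
induced by `S` along any injection `f : ℕ → ℕ` whose range contains `F` is a model. -/
theorem result (L : FirstOrder.Language.{0, 0}) (hc : Countable L.Symbols)
    (hrel : ∀ n, IsEmpty (L.Functions n)) (T : L.Theory) (φ : FmI L 0)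
    (h : ∀ S : L.Structure ℕ, IsMod T φ S → ∃ F : Set ℕ, F.Finite ∧
      ∀ (f : ℕ → ℕ) (S' : L.Structure ℕ), Function.Injective f → F ⊆ Set.range f →
        (∀ (n : ℕ) (R : L.Relations n) (v : Fin n → ℕ),
          S'.RelMap R v ↔ S.RelMap R (fun i => f (v i))) → IsMod T φ S') :
    (∃ g : ℕ → L.Structure ℕ, ∀ S : L.Structure ℕ, IsMod T φ S →
        ∃ n : ℕ, Nonempty (@FirstOrder.Language.Equiv L ℕ ℕ S (g n))) ∨
    (∃ f : (ℕ → Bool) → L.Structure ℕ, (∀ x : ℕ → Bool, IsMod T φ (f x)) ∧
        (∀ x y : ℕ → Bool,
            Nonempty (@FirstOrder.Language.Equiv L ℕ ℕ (f x) (f y)) → x = y) ∧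
        (∀ (n : ℕ) (R : L.Relations n) (a : Fin n → ℕ),
            IsClopen {x : ℕ → Bool | @FirstOrder.Language.Structure.RelMap L ℕ (f x) n R a})) :=
  HEI.dichotomy_of_maini HEI.all_MAINI hc hrel T φ h

end Pool.Agent.Results.MP_5df2c5_lc.HereditaryClasses
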